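import Mathlib

set_option autoImplicit false

/-!
# Classes in `H^1(GL_n(O_{K,S}); F_l)` vanishing on all finite subgroups
-/

namespace Pool.Agent.Results.MP_e82a76_al.NeverDetected

open CategoryTheory NumberField IsDedekindDomain nonZeroDivisors

/-- a valuation on a field restricted to units, as a homomorphism to the integers -/
noncomputable def valHom {R : Type} [CommRing R] [IsDedekindDomain R] {K : Type} [Field K]
    [Algebra R K] [IsFractionRing R K] (v : HeightOneSpectrum R) : Kˣ →* Multiplicative ℤ where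
  toFun x := WithZero.unzero (x := v.valuation K (x : K)) ((v.valuation K).ne_zero_iff.2 x.ne_zero)
  map_one' := by
    apply WithZero.coe_injective
    rw [WithZero.coe_unzero]
    simp
  map_mul' x y := by
    apply WithZero.coe_injective
    rw [WithZero.coe_mul, WithZero.coe_unzero, WithZero.coe_unzero, WithZero.coe_unzero]
    simp

theorem valHom_coe {R : Type} [CommRing R] [IsDedekindDomain R] {K : Type} [Field K]
    [Algebra R K] [IsFractionRing R K] (v : HeightOneSpectrum R) (x : Kˣ) :
    ((valHom v x : Multiplicative ℤ) : WithZero (Multiplicative ℤ)) = v.valuation K (x : K) := by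
  rw [valHom]
  exact WithZero.coe_unzero _

/-- every nonzero homomorphism to the integers is a multiple of a surjective one -/
theorem exists_surjective {G : Type} [Group G] (f : G →* Multiplicative ℤ) (g0 : G)
    (hf : f g0 ≠ 1) : ∃ g : G →* Multiplicative ℤ, Function.Surjective g := by
  let fa : Additive G →+ ℤ :=
    { toFun := fun x => Multiplicative.toAdd (f (Additive.toMul x))
      map_zero' := by simp
      map_add' := by intro x y; simp }
  obtain ⟨a, ha⟩ := Int.subgroup_cyclic (AddMonoidHom.range fa)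
  rw [← AddSubgroup.zmultiples_eq_closure] at ha
  have hdvd : ∀ x : G, a ∣ Multiplicative.toAdd (f x) := by
    intro x
    have : Multiplicative.toAdd (f x) ∈ AddSubgroup.zmultiples a := by
      rw [← ha]
      exact ⟨Additive.ofMul x, rfl⟩
    exact Int.mem_zmultiples_iff.1 this
  have ha0 : a ≠ 0 := by
    rintro rfl
    have := hdvd g0
    rw [zero_dvd_iff] at this
    exact hf this
  obtain ⟨x0, hx0⟩ : ∃ x0 : Additive G, fa x0 = a := by
    have : a ∈ AddMonoidHom.range fa := by
      rw [ha]; exact AddSubgroup.mem_zmultiples a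
    exact this
  let g : G →* Multiplicative ℤ :=
    { toFun := fun x => Multiplicative.ofAdd (Multiplicative.toAdd (f x) / a)
      map_one' := by simp
      map_mul' := by
        intro x y
        rw [map_mul, toAdd_mul, Int.add_ediv_of_dvd_left (hdvd x), ofAdd_add] }
  have hg0 : g (Additive.toMul x0) = Multiplicative.ofAdd 1 := by
    change Multiplicative.ofAdd (Multiplicative.toAdd (f (Additive.toMul x0)) / a) = _
    have : Multiplicative.toAdd (f (Additive.toMul x0)) = a := hx0
    rw [this, Int.ediv_self ha0]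
  refine ⟨g, fun y => ⟨(Additive.toMul x0) ^ (Multiplicative.toAdd y), ?_⟩⟩
  rw [map_zpow, hg0, ← ofAdd_zsmul]
  simp

theorem exists_unit (K : Type) [Field K] [NumberField K] (S : Set (HeightOneSpectrum (𝓞 K)))
    (v : HeightOneSpectrum (𝓞 K)) (hv : v ∈ S) :
    ∃ g : (S.integer K)ˣ →* Multiplicative ℤ, Function.Surjective g := by
  classical
  -- a power of `v` is principal
  have hv0 : v.asIdeal ∈ (Ideal (𝓞 K))⁰ := mem_nonZeroDivisors_of_ne_zero v.ne_bot
  set h := Fintype.card (ClassGroup (𝓞 K)) with hh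
  have hpos : 0 < h := Fintype.card_pos
  have h1 : ClassGroup.mk0 (⟨v.asIdeal ^ h, pow_mem hv0 h⟩ : (Ideal (𝓞 K))⁰) = 1 := by
    have e : (⟨v.asIdeal ^ h, pow_mem hv0 h⟩ : (Ideal (𝓞 K))⁰) = ⟨v.asIdeal, hv0⟩ ^ h := rfl
    rw [e, map_pow, hh]
    exact pow_card_eq_one
  rw [ClassGroup.mk0_eq_one_iff] at h1
  obtain ⟨p, hp⟩ := h1.principal
  have hp' : v.asIdeal ^ h = Ideal.span {p} := hp
  have hp0 : p ≠ 0 := by
    rintro rfl
    rw [Ideal.span_singleton_eq_bot.2 rfl] at hp'
    exact v.ne_bot (eq_bot_iff.2 (by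
      have := pow_eq_zero_iff (n := h) (M₀ := Ideal (𝓞 K)) (by omega) |>.1 hp'
      exact this.le))
  have hpv : p ∈ v.asIdeal := by
    have : p ∈ v.asIdeal ^ h := by rw [hp']; exact Ideal.mem_span_singleton_self p
    exact Ideal.pow_le_self (by omega) this
  have hpw : ∀ w : HeightOneSpectrum (𝓞 K), w ≠ v → p ∉ w.asIdeal := by
    intro w hw hpw
    have h2 : v.asIdeal ^ h ≤ w.asIdeal := by
      rw [hp', Ideal.span_singleton_le_iff_mem]
      exact hpw
    have h3 : v.asIdeal ≤ w.asIdeal := w.isPrime.le_of_pow_le h2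
    apply hw
    have h4 := v.isMaximal.eq_of_le w.isPrime.ne_top h3
    exact HeightOneSpectrum.ext h4.symm
  have hpK : algebraMap (𝓞 K) K p ≠ 0 := by
    rw [Ne, FaithfulSMul.algebraMap_eq_zero_iff]
    exact hp0
  -- the unit
  have hval : ∀ w : HeightOneSpectrum (𝓞 K), w ∉ S → w.valuation K (algebraMap (𝓞 K) K p) = 1 := by
    intro w hw
    rw [HeightOneSpectrum.valuation_eq_one_iff_notMem]
    exact hpw w (fun e => hw (e ▸ hv))
  let u : S.unit K := ⟨Units.mk0 _ hpK, fun w hw => hval w hw⟩
  let f : S.unit K →* Multiplicative ℤ := (valHom v).comp (S.unit K).subtype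
  have hfu : f u ≠ 1 := by
    intro e
    have h2 : ((f u : Multiplicative ℤ) : WithZero (Multiplicative ℤ)) =
        v.valuation K (algebraMap (𝓞 K) K p) := valHom_coe v _
    rw [e] at h2
    have h3 : v.valuation K (algebraMap (𝓞 K) K p) < 1 :=
      (HeightOneSpectrum.valuation_lt_one_iff_mem v p).2 hpv
    rw [← h2] at h3
    simp at h3
  obtain ⟨g, hg⟩ := exists_surjective f u hfu
  exact ⟨g.comp (S.unitEquivUnitsInteger K).symm.toMonoidHom,
    hg.comp (S.unitEquivUnitsInteger K).symm.surjective⟩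

theorem exists_place (K : Type) [Field K] [NumberField K] (l : ℕ) (hl : l.Prime) :
    ∃ v : HeightOneSpectrum (𝓞 K), (l : 𝓞 K) ∈ v.asIdeal := by
  have h1 : ¬ IsUnit (l : 𝓞 K) := by
    intro h
    have h2 := NumberField.isUnit_iff_norm.1 h
    have h3 : ((RingOfIntegers.norm ℚ (l : 𝓞 K) : 𝓞 ℚ) : ℚ) = (l : ℚ) ^ (Module.finrank ℚ K) := by
      rw [RingOfIntegers.coe_norm]
      simp [Algebra.norm_natCast]
    rw [h3] at h2
    have h4 : (1 : ℚ) < (l : ℚ) ^ (Module.finrank ℚ K) :=
      one_lt_pow₀ (by exact_mod_cast hl.one_lt) (Module.finrank_pos).ne'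
    rw [abs_of_pos (by linarith)] at h2
    linarith
  obtain ⟨M, hM, hlM⟩ := exists_max_ideal_of_mem_nonunits h1
  refine ⟨⟨M, hM.isPrime, ?_⟩, hlM⟩
  rintro rfl
  have : (l : 𝓞 K) = 0 := by simpa using hlM
  exact hl.ne_zero (by exact_mod_cast this)

/-- Let `K` be a number field, `l` a prime number, `1 ≤ n`, and let `S` be a set of finite places
of `K` containing all places above `l`. Then there is a nonzero class in
`H^1(GL_n(O_{K,S}); F_l)` whose restriction to every finite subgroup of `GL_n(O_{K,S})` is zero. -/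
theorem exists_class (K : Type) [Field K] [NumberField K] (l : ℕ) [Fact l.Prime] (n : ℕ) (hn : 1 ≤ n)
    (S : Set (HeightOneSpectrum (𝓞 K))) (hS : ∀ v, (l : 𝓞 K) ∈ v.asIdeal → v ∈ S) :
    ∃ x : groupCohomology (Rep.trivial (ZMod l) (GL (Fin n) (S.integer K)) (ZMod l)) 1, x ≠ 0 ∧
      ∀ H : Subgroup (GL (Fin n) (S.integer K)), Finite H →
        groupCohomology.map H.subtype
          (𝟙 (Rep.res H.subtype (Rep.trivial (ZMod l) (GL (Fin n) (S.integer K)) (ZMod l)))) 1 x
            = 0 := by
  obtain ⟨v, hv⟩ := exists_place K l Fact.out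
  obtain ⟨g, hg⟩ := exists_unit K S v (hS v hv)
  let A := Rep.trivial (ZMod l) (GL (Fin n) (S.integer K)) (ZMod l)
  -- the homomorphism
  let φ : Additive (GL (Fin n) (S.integer K)) →+ ZMod l :=
    (Int.castAddHom (ZMod l)).comp
      (MonoidHom.toAdditive (g.comp Matrix.GeneralLinearGroup.det) :
        Additive (GL (Fin n) (S.integer K)) →+ ℤ)
  have hφ : ∀ M : GL (Fin n) (S.integer K), φ (Additive.ofMul M) =
      ((Multiplicative.toAdd (g (Matrix.GeneralLinearGroup.det M)) : ℤ) : ZMod l) := fun _ => rfl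
  have hcoc : ((φ : Additive (GL (Fin n) (S.integer K)) → A) ∘ Additive.ofMul) ∈
      groupCohomology.cocycles₁ A :=
    groupCohomology.mem_cocycles₁_of_addMonoidHom (A := A) φ
  refine ⟨groupCohomology.H1π A ⟨_, hcoc⟩, ?_, ?_⟩
  · intro h
    rw [groupCohomology.H1π_eq_zero_iff, groupCohomology.coboundaries₁_eq_bot_of_isTrivial,
      Submodule.mem_bot] at h
    obtain ⟨u, hu⟩ := hg (Multiplicative.ofAdd 1)
    have hne : Nonempty (Fin n) := ⟨⟨0, hn⟩⟩
    obtain ⟨M, hM⟩ := Matrix.GeneralLinearGroup.det_surjective (n := Fin n) u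
    have h2 : φ (Additive.ofMul M) = 0 := congrFun h M
    rw [hφ, hM, hu, toAdd_ofAdd, Int.cast_one] at h2
    exact one_ne_zero h2
  · intro H hH
    have h1 := groupCohomology.H1π_comp_map_apply (A := A) (B := Rep.res H.subtype A) H.subtype
      (𝟙 (Rep.res H.subtype A)) ⟨_, hcoc⟩
    refine h1.trans ?_
    rw [groupCohomology.H1π_eq_zero_iff]
    have h3 : (⇑(groupCohomology.mapCocycles₁ H.subtype (𝟙 (Rep.res H.subtype A)) ⟨_, hcoc⟩) :
        H → Rep.res H.subtype A) = 0 := by
      funext y
      rw [groupCohomology.coe_mapCocycles₁]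
      change φ (Additive.ofMul (y : GL (Fin n) (S.integer K))) = 0
      rw [hφ]
      have h4 : IsOfFinOrder (y : GL (Fin n) (S.integer K)) :=
        MonoidHom.isOfFinOrder H.subtype (isOfFinOrder_of_finite y)
      have h5 : IsOfFinOrder (g (Matrix.GeneralLinearGroup.det (y : GL (Fin n) (S.integer K)))) :=
        MonoidHom.isOfFinOrder g (MonoidHom.isOfFinOrder Matrix.GeneralLinearGroup.det h4)
      have h6 : g (Matrix.GeneralLinearGroup.det (y : GL (Fin n) (S.integer K))) = 1 := by
        obtain ⟨k, hk, hk'⟩ := isOfFinOrder_iff_pow_eq_one.1 h5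
        have h7 : k * Multiplicative.toAdd
            (g (Matrix.GeneralLinearGroup.det (y : GL (Fin n) (S.integer K)))) = 0 := by
          have := congrArg Multiplicative.toAdd hk'
          rwa [toAdd_pow, toAdd_one, nsmul_eq_mul] at this
        rcases mul_eq_zero.1 h7 with h8 | h8
        · exfalso
          have : k = 0 := by exact_mod_cast h8
          omega
        · exact h8
      rw [h6, toAdd_one, Int.cast_zero]
    rw [h3]
    exact Submodule.zero_mem _

/-- Every nonzero class of the mod `l` cohomology `H^•(G; F_l)` of the discrete group `G` restricts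
to a nonzero class on at least one finite subgroup of `G`. -/
def DetectedOnFiniteSubgroups (l : ℕ) (G : Type) [Group G] : Prop :=
  ∀ (i : ℕ) (x : groupCohomology (Rep.trivial (ZMod l) G (ZMod l)) i), x ≠ 0 →
    ∃ H : Subgroup G, Finite H ∧
      groupCohomology.map H.subtype
        (𝟙 (Rep.res H.subtype (Rep.trivial (ZMod l) G (ZMod l)))) i x ≠ 0

/-- Let `K` be a number field, `l` a prime number, `1 ≤ n`, and let `S` be a set of finite places
of `K` containing all places above `l`. Then it is not true that every nonzero mod `l` class of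
`GL_n(O_{K,S})` is detected on a finite subgroup. -/
theorem result (K : Type) [Field K] [NumberField K] (l : ℕ) [Fact l.Prime] (n : ℕ) (hn : 1 ≤ n)
    (S : Set (HeightOneSpectrum (𝓞 K))) (hS : ∀ v, (l : 𝓞 K) ∈ v.asIdeal → v ∈ S) :
    ¬ DetectedOnFiniteSubgroups l (GL (Fin n) (S.integer K)) := by
  intro h
  obtain ⟨x, hx, hx'⟩ := exists_class K l n hn S hS
  obtain ⟨H, hH, hne⟩ := h 1 x hx
  exact hne (hx' H hH)

end Pool.Agent.Results.MP_e82a76_al.NeverDetected
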